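import Mathlib
import Pool.Agent.W507.SmoothDefs
import Pool.Agent.W507.Scr.AllDP
import Pool.Agent.W507.Scr.Ver

/-!
# Every smooth surface of degree `d` in projective `d`-space satisfies interpolation

The definitions are in `Pool.Agent.W507.DelPezzoDefs` and `Pool.Agent.W507.SmoothDefs`. The smooth
surfaces of degree `d` in `ℙ^d` are, by the classification quoted in the problem file,

* the anticanonically embedded del Pezzo surfaces; the dimension of each of the families of such
  surfaces (given by `IsDelPezzo T`, with `T : Kind`) is `d ^ 2 + 10`;
* for `d = 4`, the isomorphic projections of the Veronese surface (`IsProjectedVeronese`); the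
  dimension of this family is `21`;
* for `d ≥ 5`, the isomorphic projections of the rational normal surface scrolls of degree `d`; they
  form one component of the Hilbert scheme, of dimension `d ^ 2 + 3 d - 5`, and the projections
  of the balanced scrolls, of types `(a, b)` with `a + b = d` and `b = a` or `b = a + 1`
  (`IsProjectedScroll a b`), are dense in it.

The theorem asserts interpolation for each of these families: some smooth member of the family
passes through `q` general points and meets a general linear space of dimension `d - 2 - r`, where
`q (d - 2) + r` with `0 ≤ r < d - 2` is the dimension of the family (`Interpolation`). It also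
asserts the same for all systems of general linear spaces of dimensions `d - 2 - lam i`, where
`0 ≤ lam i ≤ d - 2` and the sum of the numbers `lam i` is the dimension (`AllInterpolation`).
-/

set_option autoImplicit false

namespace Pool.Agent.Results.MP_709d16_ag.SmoothSurfaces

open Pool.Agent.W507.DelPezzo

theorem result (k : Type*) [Field k] [IsAlgClosed k] [CharZero k] :
    (∀ T : Kind, Interpolation (T.degree ^ 2 + 10) {Y | IsDelPezzo (k := k) T Y}) ∧
    Interpolation (n := 4) 21 {Y | IsProjectedVeronese (k := k) Y} ∧
    (∀ a b : ℕ, b = a ∨ b = a + 1 → 5 ≤ a + b →
      Interpolation (n := a + b) ((a + b) ^ 2 + 3 * (a + b) - 5)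
        {Y | IsProjectedScroll (k := k) a b Y}) ∧
    (∀ T : Kind, AllInterpolation (T.degree ^ 2 + 10) {Y | IsDelPezzo (k := k) T Y}) ∧
    AllInterpolation (n := 4) 21 {Y | IsProjectedVeronese (k := k) Y} ∧
    (∀ a b : ℕ, b = a ∨ b = a + 1 → 5 ≤ a + b →
      AllInterpolation (n := a + b) ((a + b) ^ 2 + 3 * (a + b) - 5)
        {Y | IsProjectedScroll (k := k) a b Y}) := by
  refine ⟨fun T => (delPezzo_all T).interpolation ?_,
    veronese_all.interpolation (by norm_num),
    fun a b hab h5 => (scroll_all a b hab h5).interpolation (by omega),
    delPezzo_all, veronese_all, scroll_all⟩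
  cases T with
  | quadric => decide
  | plane r =>
    change 2 < 9 - (r : ℕ)
    omega

end Pool.Agent.Results.MP_709d16_ag.SmoothSurfaces
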